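import Pool.Agent.Q212.ZE.Stm

/-!
# The combination of the jobs
-/

namespace Pool.Agent.Q212.ZE

universe u

theorem asm (h1 : S_H1.{u}) (h2 : S_H2'.{u}) (har : S_HAR'.{u}) (rec : S_REC.{u})
    (jwo : S_JWO.{u}) (kwo : S_KWO.{u}) (rr : S_RR.{u}) (dec : S_DEC.{u}) (law : S_LAW.{u})
    (inw : S_INW.{u}) (new : S_NEW.{u}) (loc : S_LOC.{u}) (core : S_CORE'.{u}) (fpp : S_FPP.{u})
    (clo : S_CLO.{u}) (tgc : S_TGC.{u}) (pig : S_PIG.{u}) (gi : S_GI.{u}) (fin : S_FIN'.{u}) :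
    S_FIN.{u} :=
  fin (core (har h1 (h2 h1)) rec jwo kwo rr inw dec law new loc) fpp clo tgc pig gi

end Pool.Agent.Q212.ZE
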