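import Pool.Agent.Q212.ZE.Stm

/-!
# The bridge: permutations with exactly three non-fixed points in a model of set theory
-/

set_option maxHeartbeats 400000
set_option linter.all false

namespace Pool.Agent.Q212.ZEDefs

open FirstOrder FirstOrder.Language
open Pool.Agent.Helper672.Plain (LSet Mem)
open Pool.Agent.H310Cards

universe u

variable {M : Type u} [LSet.Structure M]

/-- `s` is the set of all permutations of `a` with exactly three non-fixed points. -/
def IsThreeCycleSet (s a : M) : Prop :=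
  ∀ g, Mem g s ↔ IsBij g a a ∧ ∃ x y z, Mem x a ∧ Mem y a ∧ Mem z a ∧ x ≠ y ∧ y ≠ z ∧ x ≠ z ∧
    ∀ w, Mem w a → (¬ App g w w ↔ w = x ∨ w = y ∨ w = z)

end Pool.Agent.Q212.ZEDefs

namespace Pool.Agent.Q212.ZE

open FirstOrder FirstOrder.Language
open Pool.Agent.Helper672.ZFA
open Pool.Agent.H310
open Pool.Agent.H310Cards
open Pool.Agent.Q212.ZADefs
open Pool.Agent.Q212.ZA
open Pool.Agent.Q212.ZEDefs

universe u

section

attribute [local instance] Helper672.Plain.toL

variable {M : Type u} [Helper672.Plain.LSet.Structure M] [hZ : Helper672.Plain.Zermelo M]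

local instance instModelL : IsModel M := Helper672.Plain.isModel_toL

theorem bij_iff {a z : M} : IsBij z a a ↔ ∃ σ : IPm M (El a), code σ = z := by
  constructor
  · rintro ⟨⟨h1, h2⟩, h3⟩
    obtain ⟨φ, h4, h5⟩ := exists_fun (α := El a) (β := El a) h1 (fun x => x.2)
      fun z => mem_El.1
    refine ⟨IPm.of φ h4 (fun x y hxy => ?_) (fun y => ?_), extM fun q => ?_⟩
    · exact Subtype.ext (h2 _ _ _ ((h5 x (φ y)).1 hxy) ((h5 y (φ y)).1 rfl))
    · obtain ⟨x, hx⟩ := h3 y.1 y.2
      obtain ⟨q, h6, h7⟩ := hx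
      obtain ⟨x', y', h8, h9, h10⟩ := h1.1 q h7
      have h11 := op_inj ((ordPair_iff.1 h6).symm.trans (ordPair_iff.1 h10))
      obtain ⟨rfl, -⟩ := h11
      exact ⟨⟨x, h8⟩, (h5 ⟨x, h8⟩ y).2 ⟨q, h6, h7⟩⟩
    · refine (mem_code_fun (f := (IPm.of φ h4 _ _).1)).trans ⟨?_, fun hq => ?_⟩
      · rintro ⟨x, rfl⟩
        exact app_iff.1 ((h5 x (φ x)).1 rfl)
      · obtain ⟨x, y, h6, h7, h8⟩ := h1.1 q hq
        have h9 := (h5 ⟨x, h6⟩ ⟨y, h7⟩).2 ⟨q, h8, hq⟩
        refine ⟨⟨x, h6⟩, (ordPair_iff.1 h8).trans ?_⟩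
        change _ = op x (code (φ ⟨x, h6⟩))
        rw [h9]
        rfl
  · rintro ⟨σ, rfl⟩
    refine ⟨⟨isFun_code σ.1 (fun z => mem_El) fun x => (σ.1 x).2, fun x x' y h1 h2 => ?_⟩,
      fun y hy => ?_⟩
    · obtain ⟨b, rfl, h3⟩ := app_code.1 h1
      obtain ⟨c, rfl, h4⟩ := app_code.1 h2
      rw [σ.inj (ITy.inj (h3.trans h4.symm))]
    · obtain ⟨b, hb⟩ := σ.2.2 ⟨y, hy⟩
      refine ⟨code b, app_code.2 ⟨b, rfl, ?_⟩⟩
      rw [hb]
      rfl

theorem app_self {a : M} {f : IFun M (El a) (El a)} {w : El a} :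
    App (code f) w.1 w.1 ↔ f w = w := by
  constructor
  · intro h
    obtain ⟨b, h1, h2⟩ := app_code.1 h
    have h3 : b = w := Subtype.ext h1
    subst h3
    exact Subtype.ext h2
  · intro h
    exact app_code.2 ⟨w, rfl, by rw [h]; rfl⟩

theorem mem_c3 {a s z : M} (hs : IsThreeCycleSet s a) :
    Mem z s ↔ ∃ σ : C3 M (El a), code σ = z := by
  refine (hs z).trans ⟨?_, ?_⟩
  · rintro ⟨h1, x, y, w, hx, hy, hw, hxy, hyw, hxw, h2⟩
    obtain ⟨σ, rfl⟩ := bij_iff.1 h1
    let x' : El a := ⟨x, hx⟩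
    let y' : El a := ⟨y, hy⟩
    let w' : El a := ⟨w, hw⟩
    have h3 : ∀ v : El a, σ.1 v ≠ v ↔ v = x' ∨ v = y' ∨ v = w' := by
      intro v
      refine (not_congr (app_self (f := σ.1) (w := v))).symm.trans ((h2 v.1 v.2).trans ?_)
      constructor
      · rintro (h | h | h)
        · exact Or.inl (Subtype.ext h)
        · exact Or.inr (Or.inl (Subtype.ext h))
        · exact Or.inr (Or.inr (Subtype.ext h))
      · rintro (h | h | h)
        · exact Or.inl (congrArg Subtype.val h)
        · exact Or.inr (Or.inl (congrArg Subtype.val h))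
        · exact Or.inr (Or.inr (congrArg Subtype.val h))
    have hxy' : x' ≠ y' := fun h => hxy (congrArg Subtype.val h)
    have hyw' : y' ≠ w' := fun h => hyw (congrArg Subtype.val h)
    have hxw' : x' ≠ w' := fun h => hxw (congrArg Subtype.val h)
    have h4 : ∀ v : El a, σ.1 v ≠ v → σ.1 (σ.1 v) ≠ σ.1 v := fun v h h' => h (σ.inj h')
    have hX := (h3 x').2 (Or.inl rfl)
    have hY := (h3 y').2 (Or.inr (Or.inl rfl))
    have hW := (h3 w').2 (Or.inr (Or.inr rfl))
    have h5 : ∀ v, v ≠ x' → v ≠ y' → v ≠ w' → σ.1 v = v := by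
      intro v h6 h7 h8
      by_contra h9
      rcases (h3 v).1 h9 with h | h | h
      · exact h6 h
      · exact h7 h
      · exact h8 h
    rcases (h3 _).1 (h4 x' hX) with h6 | h6 | h6
    · exact absurd h6 hX
    · have h7 : σ.1 y' = w' := by
        rcases (h3 _).1 (h4 y' hY) with h7 | h7 | h7
        · rcases (h3 _).1 (h4 w' hW) with h8 | h8 | h8
          · exact absurd (σ.inj (h7.trans h8.symm)) hyw'
          · exact absurd (σ.inj (h6.trans h8.symm)) hxw'
          · exact absurd h8 hW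
        · exact absurd h7 hY
        · exact h7
      have h8 : σ.1 w' = x' := by
        rcases (h3 _).1 (h4 w' hW) with h8 | h8 | h8
        · exact h8
        · exact absurd (σ.inj (h6.trans h8.symm)) hxw'
        · exact absurd h8 hW
      exact ⟨⟨σ.1, x', y', w', hxy', hyw', hxw', h6, h7, h8, h5⟩, rfl⟩
    · have h7 : σ.1 w' = y' := by
        rcases (h3 _).1 (h4 w' hW) with h7 | h7 | h7
        · rcases (h3 _).1 (h4 y' hY) with h8 | h8 | h8
          · exact absurd (σ.inj (h7.trans h8.symm)) hyw'.symm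
          · exact absurd h8 hY
          · exact absurd (σ.inj (h6.trans h8.symm)) hxy'
        · exact h7
        · exact absurd h7 hW
      have h8 : σ.1 y' = x' := by
        rcases (h3 _).1 (h4 y' hY) with h8 | h8 | h8
        · exact h8
        · exact absurd h8 hY
        · exact absurd (σ.inj (h6.trans h8.symm)) hxy'
      exact ⟨⟨σ.1, x', w', y', hxw', hyw'.symm, hxy', h6, h7, h8,
        fun v h9 h10 h11 => h5 v h9 h11 h10⟩, rfl⟩
  · rintro ⟨⟨f, x, y, w, hxy, hyw, hxw, h1, h2, h3, h4⟩, rfl⟩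
    have key : ∀ v, f v = v ∨ v = x ∨ v = y ∨ v = w := by
      intro v
      by_cases h5 : v = x
      · exact Or.inr (Or.inl h5)
      by_cases h6 : v = y
      · exact Or.inr (Or.inr (Or.inl h6))
      by_cases h7 : v = w
      · exact Or.inr (Or.inr (Or.inr h7))
      exact Or.inl (h4 v h5 h6 h7)
    have hmv : ∀ v, f v ≠ v ↔ v = x ∨ v = y ∨ v = w := by
      intro v
      constructor
      · intro h
        exact (key v).resolve_left h
      · rintro (rfl | rfl | rfl)
        · rw [h1]; exact hxy.symm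
        · rw [h2]; exact hyw.symm
        · rw [h3]; exact hxw
    have hinj : ∀ u v, f u = f v → u = v := by
      intro u v h
      rcases key u with h5 | rfl | rfl | rfl <;> rcases key v with h6 | rfl | rfl | rfl
      · rw [← h5, ← h6, h]
      · rw [h1] at h
        exact absurd ((h5.symm.trans h) ▸ h5) ((hmv y).2 (Or.inr (Or.inl rfl)))
      · rw [h2] at h
        exact absurd ((h5.symm.trans h) ▸ h5) ((hmv w).2 (Or.inr (Or.inr rfl)))
      · rw [h3] at h
        exact absurd ((h5.symm.trans h) ▸ h5) ((hmv x).2 (Or.inl rfl))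
      · rw [h1] at h
        exact absurd ((h6.symm.trans h.symm) ▸ h6) ((hmv y).2 (Or.inr (Or.inl rfl)))
      · rfl
      · rw [h1, h2] at h; exact absurd h hyw
      · rw [h1, h3] at h; exact absurd h.symm hxy
      · rw [h2] at h
        exact absurd ((h6.symm.trans h.symm) ▸ h6) ((hmv w).2 (Or.inr (Or.inr rfl)))
      · rw [h1, h2] at h; exact absurd h.symm hyw
      · rfl
      · rw [h2, h3] at h; exact absurd h.symm hxw
      · rw [h3] at h
        exact absurd ((h6.symm.trans h.symm) ▸ h6) ((hmv x).2 (Or.inl rfl))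
      · rw [h1, h3] at h; exact absurd h hxy
      · rw [h2, h3] at h; exact absurd h hxw
      · rfl
    have hsur : ∀ v, ∃ u, f u = v := by
      intro v
      rcases key v with h5 | rfl | rfl | rfl
      · exact ⟨v, h5⟩
      · exact ⟨w, h3⟩
      · exact ⟨x, h1⟩
      · exact ⟨y, h2⟩
    refine ⟨bij_iff.2 ⟨⟨f, hinj, hsur⟩, rfl⟩, x.1, y.1, w.1, x.2, y.2, w.2,
      fun h => hxy (Subtype.ext h), fun h => hyw (Subtype.ext h), fun h => hxw (Subtype.ext h),
      fun v hv => ?_⟩
    have h5 := hmv ⟨v, hv⟩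
    refine (not_congr (app_self (f := f) (w := ⟨v, hv⟩))).trans (h5.trans ?_)
    constructor
    · rintro (h | h | h)
      · exact Or.inl (congrArg Subtype.val h)
      · exact Or.inr (Or.inl (congrArg Subtype.val h))
      · exact Or.inr (Or.inr (congrArg Subtype.val h))
    · rintro (h | h | h)
      · exact Or.inl (Subtype.ext h)
      · exact Or.inr (Or.inl (Subtype.ext h))
      · exact Or.inr (Or.inr (Subtype.ext h))

end

/-- The theorem from the internal form. -/
theorem result_of (hfin : S_FIN.{u}) (M : Type u) [Helper672.Plain.LSet.Structure M]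
    [Helper672.Plain.Zermelo M] (a B s f : M) (hB : IsFinPartSet B a)
    (hs : IsThreeCycleSet s a) (ha : ¬ IsFinite a) : ¬ IsInj f B s := by
  letI := Pool.Agent.Helper672.Plain.toL (M := M)
  letI : Pool.Agent.Helper672.ZFA.IsModel M := Pool.Agent.Helper672.Plain.isModel_toL
  intro hf
  have hS := fun z : M => Pool.Agent.Q212.ZA.mem_finPartSet (z := z) hB
  have hT := fun z : M => mem_c3 (z := z) hs
  obtain ⟨h, hh, hh'⟩ := Pool.Agent.H310.exists_fun
    (α := Pool.Agent.Q212.ZA.IBp M (Pool.Agent.Helper672.ZFA.El a))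
    (β := C3 M (Pool.Agent.Helper672.ZFA.El a)) hf.1
    (fun x => (hS _).2 ⟨x, rfl⟩) fun z hz => (hT z).1 hz
  have hinj : ∀ P Q, h P = h Q → P = Q := fun P Q hPQ =>
    Pool.Agent.Helper672.ZFA.ITy.inj (hf.2 _ _ _ ((hh' P (h Q)).1 hPQ) ((hh' Q (h Q)).1 rfl))
  have hb := int_bl (M := M) (α := El a)
  have h1 : IntF M (fun P : IFr M (El a) => (⟨bl P, isBP_bl P⟩ : IBp M (El a))) := IntF.mk hb
  refine hfin M (El a) (Pool.Agent.H310.not_finP (fun z => Pool.Agent.H310.mem_El) ha)
    (fun P => h ⟨bl P, isBP_bl P⟩) (IntF.comp hh h1) fun P Q hPQ => ?_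
  exact bl_inj (congrArg Subtype.val (hinj _ _ hPQ))

end Pool.Agent.Q212.ZE
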