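import Pool.Agent.Q212.ZE.Stm

/-!
# The internal form of the theorem (job FIN)
-/

set_option maxHeartbeats 400000
set_option linter.all false

namespace Pool.Agent.Q212.ZE

open FirstOrder FirstOrder.Language
open Pool.Agent.Helper672.ZFA
open Pool.Agent.H310
open Pool.Agent.Q212.ZA

universe u

theorem finP_finset {M : Type u} [L.Structure M] [hM : IsModel M] {α : Type u} [ITy M α]
    [DecidableEq α] (t : Finset α) : FinP M (fun x => x ∈ t) := by
  induction t using Finset.induction_on with
  | empty => exact ⟨∅, IFin.empty, fun a ha => absurd ha (by simp)⟩
  | insert a s _ ih =>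
    exact ((FinP.eq a).or ih).mono fun x hx => Finset.mem_insert.1 hx

theorem mem_idR {M : Type u} [L.Structure M] [hM : IsModel M] {α : Type u} [ITy M α] {x y : α} :
    (x, y) ∈ (idR M α).1 ↔ x = y := by
  have hI : Int M (fun q : α × α => q.1 = q.2) := by
    (repeat' (first | with_reducible exact IntF.id | with_reducible exact IntF.fst' | with_reducible exact IntF.snd' | with_reducible exact IntF.const _ | with_reducible exact Int.const _ | assumption | with_reducible apply Int.and | with_reducible apply Int.or | with_reducible apply Int.not | with_reducible apply Int.imp | with_reducible apply Int.iff | with_reducible apply Int.ne | with_reducible apply Int.eq | with_reducible apply Int.mem | with_reducible apply Int.subset | with_reducible apply Int.ltN | with_reducible apply Int.leN | with_reducible apply Int.fin | with_reducible apply Int.unique | with_reducible apply Int.all | with_reducible apply Int.ex | with_reducible apply IntF.fst | with_reducible apply IntF.snd | with_reducible apply IntF.app | with_reducible apply IntF.ite | with_reducible apply IntF.sep | with_reducible apply IntF.lam | with_reducible apply IntF.insert | with_reducible apply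 IntF.singleton | with_reducible apply IntF.union | with_reducible apply IntF.inter | with_reducible apply IntF.sdiff | with_reducible apply IntF.isUnion | with_reducible apply IntF.iimage | with_reducible apply IntF.the | with_reducible apply IntF.irec | with_reducible_and_instances apply IntF.add | with_reducible_and_instances apply IntF.mul | with_reducible apply IntF.succ | with_reducible apply IntF.val | (with_reducible refine Int.comp ?_ ?_; assumption) | (with_reducible refine Int.comp₂ ?_ ?_ ?_; assumption) | (with_reducible refine Int.comp₃ ?_ ?_ ?_ ?_; assumption) | (with_reducible refine IntF.comp ?_ ?_; assumption) | (with_reducible refine IntF.comp₂ ?_ ?_ ?_; assumption) | (with_reducible refine IntF.comp₃ ?_ ?_ ?_ ?_; assumption) | with_reducible apply IntF.pair))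
  exact mem_sep (a := (x, y)) hI

theorem fin : S_FIN'.{u} := by
  intro hCORE hFPP hCLO hTGC hPIG hGI M _ _ α _ hinf f hf hinj
  classical
  have hinfi : Infinite α := by
    rw [← not_finite_iff_infinite]
    intro hfin
    obtain ⟨n, ⟨e⟩⟩ := Finite.exists_equiv_fin α
    haveI : Fintype α := Fintype.ofFinite α
    exact hinf ((finP_finset (Finset.univ : Finset α)).mono fun x _ => Finset.mem_univ x)
  let w : Fin 7 → α := fun i => Infinite.natEmbedding α i.val
  have hw : Function.Injective w := fun i j h =>
    Fin.val_injective ((Infinite.natEmbedding α).injective h)
  obtain ⟨E₀, hE₀, hwE⟩ := finP_finset (M := M) (Finset.univ.image w)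
  have hT := hTGC M α
  obtain ⟨E, hE, hE₀E, hcl⟩ := hCLO hCORE hFPP M α (C3 M α) (fun g => sp g) f hT hf hinj E₀ hE₀
  have hwE' : ∀ i, w i ∈ E := fun i => hE₀E _ (hwE _ (Finset.mem_image_of_mem w (Finset.mem_univ i)))
  obtain ⟨G, hG, hGE, hGinj⟩ := hGI M α E hE w hw hwE'
  have hsp := hT.int
  have hI : Int M (fun g : C3 M α => sp g ⊆ E) := by
    (repeat' (first | with_reducible exact IntF.id | with_reducible exact IntF.fst' | with_reducible exact IntF.snd' | with_reducible exact IntF.const _ | with_reducible exact Int.const _ | assumption | with_reducible apply Int.and | with_reducible apply Int.or | with_reducible apply Int.not | with_reducible apply Int.imp | with_reducible apply Int.iff | with_reducible apply Int.ne | with_reducible apply Int.eq | with_reducible apply Int.mem | with_reducible apply Int.subset | with_reducible apply Int.ltN | with_reducible apply Int.leN | with_reducible apply Int.fin | with_reducible apply Int.unique | with_reducible apply Int.all | with_reducible apply Int.ex | with_reducible apply IntF.fst | with_reducible apply IntF.snd | with_reducible apply IntF.app | with_reducible apply IntF.ite | with_reducible apply IntF.sep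 | with_reducible apply IntF.lam | with_reducible apply IntF.insert | with_reducible apply IntF.singleton | with_reducible apply IntF.union | with_reducible apply IntF.inter | with_reducible apply IntF.sdiff | with_reducible apply IntF.isUnion | with_reducible apply IntF.iimage | with_reducible apply IntF.the | with_reducible apply IntF.irec | with_reducible_and_instances apply IntF.add | with_reducible_and_instances apply IntF.mul | with_reducible apply IntF.succ | with_reducible apply IntF.val | (with_reducible refine Int.comp ?_ ?_; assumption) | (with_reducible refine Int.comp₂ ?_ ?_ ?_; assumption) | (with_reducible refine Int.comp₃ ?_ ?_ ?_ ?_; assumption) | (with_reducible refine IntF.comp ?_ ?_; assumption) | (with_reducible refine IntF.comp₂ ?_ ?_ ?_; assumption) | (with_reducible refine IntF.comp₃ ?_ ?_ ?_ ?_; assumption) | with_reducible apply IntF.pair))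
  have hS : IFin (sep M (fun g : C3 M α => sp g ⊆ E)) := (hT.fib E hE).fin hI
  have hGf : IntF M (fun g => f (G g)) := IntF.comp hf hG
  obtain ⟨g, hg, hgid⟩ := hPIG M (C3 M α) (sep M (fun g : C3 M α => sp g ⊆ E)) hS
    (fun g => f (G g)) hGf
    (fun g hg => (mem_sep hI).2 (hcl _ (hGE g ((mem_sep hI).1 hg)).1))
    (fun g g' hg hg' h => hGinj g g' ((mem_sep hI).1 hg) ((mem_sep hI).1 hg') (hinj _ _ h))
    (f (idR M α)) ((mem_sep hI).2 (hcl _ fun x y h => Or.inl (mem_idR.1 h)))
  exact (hGE g ((mem_sep hI).1 hg)).2 (hinj _ _ hgid)

end Pool.Agent.Q212.ZE
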