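import Pool.Agent.Q212.ZE.FIN

/-!
# An injection from the 3-cycles to the partitions (job GI)
-/

set_option maxHeartbeats 400000
set_option linter.all false

namespace Pool.Agent.Q212.ZE

open FirstOrder FirstOrder.Language
open Pool.Agent.Helper672.ZFA
open Pool.Agent.H310
open Pool.Agent.Q212.ZA

universe u

section gi

variable {M : Type u} [L.Structure M] [hM : IsModel M] {α : Type u} [ITy M α]

def Cy (g : IFun M α α) (a b c : α) : Prop :=
  a ≠ b ∧ b ≠ c ∧ a ≠ c ∧ g a = b ∧ g b = c ∧ g c = a ∧
    ∀ x, x ≠ a → x ≠ b → x ≠ c → g x = x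

theorem Cy.rot {g : IFun M α α} {a b c : α} (h : Cy g a b c) : Cy g b c a := by
  obtain ⟨h1, h2, h3, h4, h5, h6, h7⟩ := h
  exact ⟨h2, h3.symm, h1.symm, h5, h6, h4, fun x h8 h9 h10 => h7 x h10 h8 h9⟩

def Pos (e : IFun M α (INat M)) (g : IFun M α α) : Prop :=
  ∃ x, g x ≠ x ∧ e x < e (g x) ∧ e (g x) < e (g (g x))

theorem int_Pos (e : IFun M α (INat M)) : Int M (fun g : IFun M α α => Pos e g) := by
  unfold Pos
  (repeat' (first | with_reducible exact IntF.id | with_reducible exact IntF.fst' | with_reducible exact IntF.snd' | with_reducible exact IntF.const _ | with_reducible exact Int.const _ | assumption | with_reducible apply Int.and | with_reducible apply Int.or | with_reducible apply Int.not | with_reducible apply Int.imp | with_reducible apply Int.iff | with_reducible apply Int.ne | with_reducible apply Int.eq | with_reducible apply Int.mem | with_reducible apply Int.subset | with_reducible apply Int.ltN | with_reducible apply Int.leN | with_reducible apply Int.fin | with_reducible apply Int.unique | with_reducible apply Int.all | with_reducible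 apply Int.ex | with_reducible apply IntF.fst | with_reducible apply IntF.snd | with_reducible apply IntF.app | with_reducible apply IntF.ite | with_reducible apply IntF.sep | with_reducible apply IntF.lam | with_reducible apply IntF.insert | with_reducible apply IntF.singleton | with_reducible apply IntF.union | with_reducible apply IntF.inter | with_reducible apply IntF.sdiff | with_reducible apply IntF.isUnion | with_reducible apply IntF.iimage | with_reducible apply IntF.the | with_reducible apply IntF.irec | with_reducible_and_instances apply IntF.add | with_reducible_and_instances apply IntF.mul | with_reducible apply IntF.succ | with_reducible apply IntF.val | (with_reducible refine Int.comp ?_ ?_; assumption) | (with_reducible refine Int.comp₂ ?_ ?_ ?_; assumption) | (with_reducible refine Int.comp₃ ?_ ?_ ?_ ?_; assumption) | (with_reducible refine IntF.comp ?_ ?_; assumption) | (with_reducible refine IntF.comp₂ ?_ ?_ ?_; assumption) | (with_reducible refine IntF.comp₃ ?_ ?_ ?_ ?_; assumption) | with_reducible apply IntF.pair))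

/-- The sorted form. -/
def Srt (e : IFun M α (INat M)) (g : IFun M α α) (p q r : α) : Prop :=
  e p < e q ∧ e q < e r ∧ (∀ x, g x ≠ x ↔ x = p ∨ x = q ∨ x = r) ∧
    ((Pos e g ∧ g p = q ∧ g q = r ∧ g r = p) ∨ (¬ Pos e g ∧ g p = r ∧ g r = q ∧ g q = p))

theorem Cy.supp {g : IFun M α α} {a b c : α} (h : Cy g a b c) (x : α) :
    g x ≠ x ↔ x = a ∨ x = b ∨ x = c := by
  obtain ⟨h1, h2, h3, h4, h5, h6, h7⟩ := h
  constructor
  · intro h8
    by_contra hc
    push Not at hc
    exact h8 (h7 x hc.1 hc.2.1 hc.2.2)
  · rintro (rfl | rfl | rfl)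
    · rw [h4]; exact h1.symm
    · rw [h5]; exact h2.symm
    · rw [h6]; exact h3

theorem srt_aux {e : IFun M α (INat M)} {g : IFun M α α} {a b c : α} (h : Cy g a b c)
    (hab : e a < e b) (hac : e a < e c) (hbc : e b ≠ e c) : ∃ p q r, Srt e g p q r := by
  have hs := h.supp
  obtain ⟨h1, h2, h3, h4, h5, h6, h7⟩ := h
  rcases lt_or_gt_of_ne hbc with hlt | hlt
  · refine ⟨a, b, c, hab, hlt, hs, Or.inl ⟨⟨a, ?_, ?_, ?_⟩, h4, h5, h6⟩⟩
    · rw [h4]; exact h1.symm
    · rw [h4]; exact hab
    · rw [h4, h5]; exact hlt
  · refine ⟨a, c, b, hac, hlt, fun x => (hs x).trans ?_, Or.inr ⟨?_, h4, h5, h6⟩⟩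
    · constructor
      · rintro (h | h | h) <;> simp [h]
      · rintro (h | h | h) <;> simp [h]
    · rintro ⟨x, h8, h9, h10⟩
      rcases (hs x).1 h8 with rfl | rfl | rfl
      · rw [h4, h5] at h10
        exact absurd (lt_trans h10 hlt) (lt_irrefl _)
      · rw [h5] at h9
        exact absurd (lt_trans h9 hlt) (lt_irrefl _)
      · rw [h6] at h9
        exact absurd (lt_trans h9 hac) (lt_irrefl _)

theorem exists_srt {e : IFun M α (INat M)} {g : IFun M α α} (hg : IsC3 g)
    (he : ∀ x y, g x ≠ x → g y ≠ y → e x = e y → x = y) : ∃ p q r, Srt e g p q r := by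
  obtain ⟨a, b, c, h⟩ := hg
  have h : Cy g a b c := h
  have hs := h.supp
  have hab : e a ≠ e b := fun h' => h.1 (he a b ((hs a).2 (by simp)) ((hs b).2 (by simp)) h')
  have hbc : e b ≠ e c := fun h' => h.2.1 (he b c ((hs b).2 (by simp)) ((hs c).2 (by simp)) h')
  have hac : e a ≠ e c := fun h' => h.2.2.1 (he a c ((hs a).2 (by simp)) ((hs c).2 (by simp)) h')
  rcases lt_or_gt_of_ne hab with h1 | h1
  · rcases lt_or_gt_of_ne hac with h2 | h2
    · exact srt_aux h h1 h2 hbc
    · exact srt_aux h.rot.rot h2 (lt_trans h2 h1) hab
  · rcases lt_or_gt_of_ne hbc with h2 | h2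
    · exact srt_aux h.rot h2 h1 hac.symm
    · exact srt_aux h.rot.rot (lt_trans h2 h1) h2 hab

theorem srt_unique {e : IFun M α (INat M)} {g g' : IFun M α α} {p q r p' q' r' : α}
    (h : Srt e g p q r) (h' : Srt e g' p' q' r') (hs : ∀ x, g x ≠ x ↔ g' x ≠ x)
    (hp : Pos e g ↔ Pos e g') : g = g' := by
  obtain ⟨h1, h2, h3, h4⟩ := h
  obtain ⟨h1', h2', h3', h4'⟩ := h'
  have hp' : p' = p ∨ p' = q ∨ p' = r := (h3 p').1 ((hs p').2 ((h3' p').2 (Or.inl rfl)))
  have hq' : q' = p ∨ q' = q ∨ q' = r := (h3 q').1 ((hs q').2 ((h3' q').2 (Or.inr (Or.inl rfl))))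
  have hr' : r' = p ∨ r' = q ∨ r' = r := (h3 r').1 ((hs r').2 ((h3' r').2 (Or.inr (Or.inr rfl))))
  have key : p' = p ∧ q' = q ∧ r' = r := by
    have h13 := lt_trans h1 h2
    rcases hp' with h5 | h5 | h5 <;> rcases hq' with h6 | h6 | h6 <;>
      rcases hr' with h7 | h7 | h7 <;> rw [h5, h6] at h1' <;> rw [h6, h7] at h2' <;>
      first
        | exact ⟨h5, h6, h7⟩
        | exact absurd h1' (lt_irrefl _)
        | exact absurd h2' (lt_irrefl _)
        | exact absurd h1' (lt_asymm h1)
        | exact absurd h1' (lt_asymm h2)
        | exact absurd h1' (lt_asymm h13)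
        | exact absurd h2' (lt_asymm h1)
        | exact absurd h2' (lt_asymm h2)
        | exact absurd h2' (lt_asymm h13)
  obtain ⟨rfl, rfl, rfl⟩ := key
  apply IFun.ext'
  intro x
  by_cases hx : g x ≠ x
  · rcases h4 with ⟨k0, k1, k2, k3⟩ | ⟨k0, k1, k2, k3⟩
    · rcases h4' with ⟨l0, l1, l2, l3⟩ | ⟨l0, l1, l2, l3⟩
      · rcases (h3 x).1 hx with rfl | rfl | rfl
        · rw [k1, l1]
        · rw [k2, l2]
        · rw [k3, l3]
      · exact absurd (hp.1 k0) l0
    · rcases h4' with ⟨l0, l1, l2, l3⟩ | ⟨l0, l1, l2, l3⟩
      · exact absurd (hp.2 l0) k0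
      · rcases (h3 x).1 hx with rfl | rfl | rfl
        · rw [k1, l1]
        · rw [k3, l3]
        · rw [k2, l2]
  · have hx' : ¬ g' x ≠ x := fun h => hx ((hs x).2 h)
    push Not at hx hx'
    rw [hx, hx']

theorem exists_out {w : Fin 7 → α} (hw : Function.Injective w) [DecidableEq α] (t : Finset α)
    (ht : t.card ≤ 6) : ∃ i, w i ∉ t := by
  by_contra hc
  push Not at hc
  have h1 : (Finset.univ.image w).card = 7 := by
    rw [Finset.card_image_of_injective _ hw]; simp
  have h2 : Finset.univ.image w ⊆ t := by
    intro x hx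
    obtain ⟨i, _, rfl⟩ := Finset.mem_image.1 hx
    exact hc i
  have := Finset.card_le_card h2
  omega

/-- The relation. -/
def Rl (e : IFun M α (INat M)) (E : IPow M α) (g : C3 M α) (x y : α) : Prop :=
  x = y ∨ (g.1 x ≠ x ∧ g.1 y ≠ y) ∨
    ((¬ Pos e g.1 ∧ x ∈ E ∧ ¬ g.1 x ≠ x) ∧ (y ∈ E ∧ ¬ g.1 y ≠ y))

theorem gi : S_GI.{u} := by
  intro M _ _ α _ E hE w hw hwE
  classical
  obtain ⟨e, n, hBN⟩ := exists_BN hE
  have hPos := int_Pos e
  have hinj : ∀ x y, x ∈ E → y ∈ E → e x = e y → x = y := hBN.2.1
  have hspI : ∀ g : C3 M α, Int M (fun x => g.1 x ≠ x) := fun g => by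
    (repeat' (first | with_reducible exact IntF.id | with_reducible exact IntF.fst' | with_reducible exact IntF.snd' | with_reducible exact IntF.const _ | with_reducible exact Int.const _ | assumption | with_reducible apply Int.and | with_reducible apply Int.or | with_reducible apply Int.not | with_reducible apply Int.imp | with_reducible apply Int.iff | with_reducible apply Int.ne | with_reducible apply Int.eq | with_reducible apply Int.mem | with_reducible apply Int.subset | with_reducible apply Int.ltN | with_reducible apply Int.leN | with_reducible apply Int.fin | with_reducible apply Int.unique | with_reducible apply Int.all | with_reducible apply Int.ex | with_reducible apply IntF.fst | with_reducible apply IntF.snd | with_reducible apply IntF.app | with_reducible apply IntF.ite | with_reducible apply IntF.sep | with_reducible apply IntF.lam | with_reducible apply IntF.insert | with_reducible apply IntF.singleton | with_reducible apply IntF.union | with_reducible apply IntF.inter | with_reducible apply IntF.sdiff | with_reducible apply IntF.isUnion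 | with_reducible apply IntF.iimage | with_reducible apply IntF.the | with_reducible apply IntF.irec | with_reducible_and_instances apply IntF.add | with_reducible_and_instances apply IntF.mul | with_reducible apply IntF.succ | with_reducible apply IntF.val | (with_reducible refine Int.comp ?_ ?_; assumption) | (with_reducible refine Int.comp₂ ?_ ?_ ?_; assumption) | (with_reducible refine Int.comp₃ ?_ ?_ ?_ ?_; assumption) | (with_reducible refine IntF.comp ?_ ?_; assumption) | (with_reducible refine IntF.comp₂ ?_ ?_ ?_; assumption) | (with_reducible refine IntF.comp₃ ?_ ?_ ?_ ?_; assumption) | with_reducible apply IntF.pair))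
  have hsp : ∀ (g : C3 M α) x, x ∈ sp g ↔ g.1 x ≠ x := fun g x => mem_sep (hspI g)
  have hR : Int M (fun q : (C3 M α × α) × α => Rl e E q.1.1 q.1.2 q.2) := by
    unfold Rl
    (repeat' (first | with_reducible exact IntF.id | with_reducible exact IntF.fst' | with_reducible exact IntF.snd' | with_reducible exact IntF.const _ | with_reducible exact Int.const _ | assumption | with_reducible apply Int.and | with_reducible apply Int.or | with_reducible apply Int.not | with_reducible apply Int.imp | with_reducible apply Int.iff | with_reducible apply Int.ne | with_reducible apply Int.eq | with_reducible apply Int.mem | with_reducible apply Int.subset | with_reducible apply Int.ltN | with_reducible apply Int.leN | with_reducible apply Int.fin | with_reducible apply Int.unique | with_reducible apply Int.all | with_reducible apply Int.ex | with_reducible apply IntF.fst | with_reducible apply IntF.snd | with_reducible apply IntF.app | with_reducible apply IntF.ite | with_reducible apply IntF.sep | with_reducible apply IntF.lam | with_reducible apply IntF.insert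 | with_reducible apply IntF.singleton | with_reducible apply IntF.union | with_reducible apply IntF.inter | with_reducible apply IntF.sdiff | with_reducible apply IntF.isUnion | with_reducible apply IntF.iimage | with_reducible apply IntF.the | with_reducible apply IntF.irec | with_reducible_and_instances apply IntF.add | with_reducible_and_instances apply IntF.mul | with_reducible apply IntF.succ | with_reducible apply IntF.val | (with_reducible refine Int.comp ?_ ?_; assumption) | (with_reducible refine Int.comp₂ ?_ ?_ ?_; assumption) | (with_reducible refine Int.comp₃ ?_ ?_ ?_ ?_; assumption) | (with_reducible refine IntF.comp ?_ ?_; assumption) | (with_reducible refine IntF.comp₂ ?_ ?_ ?_; assumption) | (with_reducible refine IntF.comp₃ ?_ ?_ ?_ ?_; assumption) | with_reducible apply IntF.pair))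
  have hRg : ∀ g : C3 M α, Int M (fun q : α × α => Rl e E g q.1 q.2) := fun g => by
    unfold Rl
    (repeat' (first | with_reducible exact IntF.id | with_reducible exact IntF.fst' | with_reducible exact IntF.snd' | with_reducible exact IntF.const _ | with_reducible exact Int.const _ | assumption | with_reducible apply Int.and | with_reducible apply Int.or | with_reducible apply Int.not | with_reducible apply Int.imp | with_reducible apply Int.iff | with_reducible apply Int.ne | with_reducible apply Int.eq | with_reducible apply Int.mem | with_reducible apply Int.subset | with_reducible apply Int.ltN | with_reducible apply Int.leN | with_reducible apply Int.fin | with_reducible apply Int.unique | with_reducible apply Int.all | with_reducible apply Int.ex | with_reducible apply IntF.fst | with_reducible apply IntF.snd | with_reducible apply IntF.app | with_reducible apply IntF.ite | with_reducible apply IntF.sep | with_reducible apply IntF.lam | with_reducible apply IntF.insert | with_reducible apply IntF.singleton | with_reducible apply IntF.union | with_reducible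 apply IntF.inter | with_reducible apply IntF.sdiff | with_reducible apply IntF.isUnion | with_reducible apply IntF.iimage | with_reducible apply IntF.the | with_reducible apply IntF.irec | with_reducible_and_instances apply IntF.add | with_reducible_and_instances apply IntF.mul | with_reducible apply IntF.succ | with_reducible apply IntF.val | (with_reducible refine Int.comp ?_ ?_; assumption) | (with_reducible refine Int.comp₂ ?_ ?_ ?_; assumption) | (with_reducible refine Int.comp₃ ?_ ?_ ?_ ?_; assumption) | (with_reducible refine IntF.comp ?_ ?_; assumption) | (with_reducible refine IntF.comp₂ ?_ ?_ ?_; assumption) | (with_reducible refine IntF.comp₃ ?_ ?_ ?_ ?_; assumption) | with_reducible apply IntF.pair))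
  have hfin3 : ∀ g : C3 M α, FinP M (fun x => g.1 x ≠ x) := by
    intro g
    obtain ⟨a, b, c, h⟩ := g.2
    have h : Cy g.1 a b c := h
    exact ((FinP.eq a).or ((FinP.eq b).or (FinP.eq c))).mono fun x hx => (h.supp x).1 hx
  have hmem : ∀ (g : C3 M α) (x y : α), (x, y) ∈ (mkR M (Rl e E g)).1 ↔ Rl e E g x y := by
    intro g
    refine mkR_spec (hRg g) (fun a => Or.inl rfl) ?_ ?_ ?_
    · rintro a b (h | h | h)
      · exact Or.inl h.symm
      · exact Or.inr (Or.inl ⟨h.2, h.1⟩)
      · exact Or.inr (Or.inr ⟨⟨h.1.1, h.2.1, h.2.2⟩, h.1.2.1, h.1.2.2⟩)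
    · rintro a b c (rfl | h | h) (rfl | h' | h')
      · exact Or.inl rfl
      · exact Or.inr (Or.inl h')
      · exact Or.inr (Or.inr h')
      · exact Or.inr (Or.inl h)
      · exact Or.inr (Or.inl ⟨h.1, h'.2⟩)
      · exact absurd h.2 h'.1.2.2
      · exact Or.inr (Or.inr h)
      · exact absurd h'.1 h.2.2
      · exact Or.inr (Or.inr ⟨h.1, h'.2⟩)
    · intro a
      refine ((FinP.eq a).or ((hfin3 g).or (⟨E, hE, fun x hx => hx⟩ :
        FinP M (fun x => x ∈ E)))).mono fun b hb => ?_
      rcases hb with h | h | h
      · exact Or.inl h.symm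
      · exact Or.inr (Or.inl h.2)
      · exact Or.inr (Or.inr h.2.1)
  refine ⟨fun g => mkR M (Rl e E g), IntF.mkR hR, fun g hg => ⟨?_, ?_⟩, fun g g' hg hg' h => ?_⟩
  · intro x y hxy
    rcases (hmem g x y).1 hxy with h | h | h
    · exact Or.inl h
    · exact Or.inr ⟨hg x ((hsp g x).2 h.1), hg y ((hsp g y).2 h.2)⟩
    · exact Or.inr ⟨h.1.2.1, h.2.1⟩
  · intro h
    have h : mkR M (Rl e E g) = idR M α := h
    obtain ⟨a, b, c, h'⟩ := g.2
    have h' : Cy g.1 a b c := h'
    have h1 : (a, b) ∈ (mkR M (Rl e E g)).1 :=
      (hmem g a b).2 (Or.inr (Or.inl ⟨(h'.supp a).2 (by simp), (h'.supp b).2 (by simp)⟩))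
    rw [h] at h1
    exact h'.1 (mem_idR.1 h1)
  · have h : mkR M (Rl e E g) = mkR M (Rl e E g') := h
    have hRR : ∀ x y, Rl e E g x y ↔ Rl e E g' x y := fun x y => by
      rw [← hmem g, ← hmem g', h]
    obtain ⟨a, b, c, h3⟩ := g.2
    have h3 : Cy g.1 a b c := h3
    obtain ⟨a', b', c', h3'⟩ := g'.2
    have h3' : Cy g'.1 a' b' c' := h3'
    have hs := h3.supp
    have hs' := h3'.supp
    -- one of the two supports is contained in the other one or in the complement
    have step : ∀ (g g' : C3 M α) (a' b' c' : α), (∀ x y, Rl e E g' x y → Rl e E g x y) →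
        Cy g'.1 a' b' c' → (∀ x, g'.1 x ≠ x → g.1 x ≠ x) ∨
          (¬ Pos e g.1 ∧ ∀ x, g'.1 x ≠ x → ¬ g.1 x ≠ x) := by
      intro g g' a' b' c' hRR h3'
      have hs' := h3'.supp
      have ha := (hs' a').2 (by simp)
      have hb := (hs' b').2 (by simp)
      have hc := (hs' c').2 (by simp)
      have h1 := hRR a' b' (Or.inr (Or.inl ⟨ha, hb⟩))
      have h2 := hRR b' c' (Or.inr (Or.inl ⟨hb, hc⟩))
      rcases h1 with h1 | h1 | h1
      · exact absurd h1 h3'.1
      · left
        intro x hx
        rcases h2 with h2 | h2 | h2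
        · exact absurd h2 h3'.2.1
        · rcases (hs' x).1 hx with rfl | rfl | rfl
          · exact h1.1
          · exact h1.2
          · exact h2.2
        · exact absurd h1.2 h2.1.2.2
      · right
        refine ⟨h1.1.1, fun x hx => ?_⟩
        rcases h2 with h2 | h2 | h2
        · exact absurd h2 h3'.2.1
        · exact absurd h2.1 h1.2.2
        · rcases (hs' x).1 hx with rfl | rfl | rfl
          · exact h1.1.2.2
          · exact h1.2.2
          · exact h2.2.2
    have hcard6 : ({a, b, c, a', b', c'} : Finset α).card ≤ 6 := Finset.card_le_six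
    obtain ⟨i, hi⟩ := exists_out hw {a, b, c, a', b', c'} hcard6
    simp only [Finset.mem_insert, Finset.mem_singleton, not_or] at hi
    have hig : ¬ g.1 (w i) ≠ w i := fun h => by
      rcases (hs _).1 h with h | h | h
      · exact hi.1 h
      · exact hi.2.1 h
      · exact hi.2.2.1 h
    have hig' : ¬ g'.1 (w i) ≠ w i := fun h => by
      rcases (hs' _).1 h with h | h | h
      · exact hi.2.2.2.1 h
      · exact hi.2.2.2.2.1 h
      · exact hi.2.2.2.2.2 h
    have ha' := (hs' a').2 (by simp)
    have ha := (hs a).2 (by simp)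
    have hsub : ∀ x, g'.1 x ≠ x → g.1 x ≠ x := by
      rcases step g g' a' b' c' (fun x y => (hRR x y).2) h3' with h4 | ⟨h4, h5⟩
      · exact h4
      · exfalso
        have h6 : Rl e E g (w i) a' :=
          Or.inr (Or.inr ⟨⟨h4, hwE i, hig⟩, hg' _ ((hsp g' a').2 ha'), h5 a' ha'⟩)
        rcases (hRR _ _).1 h6 with h7 | h7 | h7
        · exact hi.2.2.2.1 h7
        · exact hig' h7.1
        · exact h7.2.2 ha'
    have hsub' : ∀ x, g.1 x ≠ x → g'.1 x ≠ x := by
      rcases step g' g a b c (fun x y => (hRR x y).1) h3 with h4 | ⟨h4, h5⟩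
      · exact h4
      · exact absurd (hsub a' ha') (fun h => h5 a' h ha')
    have hsupp : ∀ x, g.1 x ≠ x ↔ g'.1 x ≠ x := fun x => ⟨hsub' x, hsub x⟩
    obtain ⟨j, hj⟩ := exists_out hw {a, b, c, w i} (Finset.card_le_four.trans (by norm_num))
    simp only [Finset.mem_insert, Finset.mem_singleton, not_or] at hj
    have hjg : ¬ g.1 (w j) ≠ w j := fun h => by
      rcases (hs _).1 h with h | h | h
      · exact hj.1 h
      · exact hj.2.1 h
      · exact hj.2.2.1 h
    have hpos : Pos e g.1 ↔ Pos e g'.1 := by
      constructor
      · intro h4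
        by_contra h5
        have h6 : Rl e E g' (w j) (w i) :=
          Or.inr (Or.inr ⟨⟨h5, hwE j, fun h => hjg (hsub _ h)⟩, hwE i, hig'⟩)
        rcases (hRR _ _).2 h6 with h7 | h7 | h7
        · exact hj.2.2.2 h7
        · exact hjg h7.1
        · exact h7.1.1 h4
      · intro h4
        by_contra h5
        have h6 : Rl e E g (w j) (w i) :=
          Or.inr (Or.inr ⟨⟨h5, hwE j, hjg⟩, hwE i, hig⟩)
        rcases (hRR _ _).1 h6 with h7 | h7 | h7
        · exact hj.2.2.2 h7
        · exact hjg (hsub _ h7.1)
        · exact h7.1.1 h4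
    obtain ⟨p, q, r, hsrt⟩ := exists_srt (e := e) g.2 (fun x y hx hy hxy =>
      hinj x y (hg x ((hsp g x).2 hx)) (hg y ((hsp g y).2 hy)) hxy)
    obtain ⟨p', q', r', hsrt'⟩ := exists_srt (e := e) g'.2 (fun x y hx hy hxy =>
      hinj x y (hg' x ((hsp g' x).2 hx)) (hg' y ((hsp g' y).2 hy)) hxy)
    exact Subtype.ext (srt_unique hsrt hsrt' hsupp hpos)

end gi

end Pool.Agent.Q212.ZE
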