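import Pool.Agent.Q212.ZE.Stm

/-!
# The pigeonhole principle (job PIG)
-/

set_option maxHeartbeats 400000
set_option linter.all false

namespace Pool.Agent.Q212.ZE

open FirstOrder FirstOrder.Language
open Pool.Agent.Helper672.ZFA
open Pool.Agent.H310
open Pool.Agent.Q212.ZA

universe u

theorem pig : S_PIG.{u} := by
  intro M _ _ β _ s hs
  have key : ∀ s : IPow M β, IFin s → ∀ h : IFun M β β, (∀ x, x ∈ s → h x ∈ s) →
      (∀ x y, x ∈ s → y ∈ s → h x = h y → x = y) → ∀ y, y ∈ s → ∃ x, x ∈ s ∧ h x = y := by
    refine IFin.ind ?_ ?_ ?_
    · (repeat' (first | with_reducible exact IntF.id | with_reducible exact IntF.fst' | with_reducible exact IntF.snd' | with_reducible exact IntF.const _ | with_reducible exact Int.const _ | assumption | with_reducible apply Int.and | with_reducible apply Int.or | with_reducible apply Int.not | with_reducible apply Int.imp | with_reducible apply Int.iff | with_reducible apply Int.ne | with_reducible apply Int.eq | with_reducible apply Int.mem | with_reducible apply Int.subset | with_reducible apply Int.ltN | with_reducible apply Int.leN | with_reducible apply Int.fin | with_reducible apply Int.unique | with_reducible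 apply Int.all | with_reducible apply Int.ex | with_reducible apply IntF.fst | with_reducible apply IntF.snd | with_reducible apply IntF.app | with_reducible apply IntF.ite | with_reducible apply IntF.sep | with_reducible apply IntF.lam | with_reducible apply IntF.insert | with_reducible apply IntF.singleton | with_reducible apply IntF.union | with_reducible apply IntF.inter | with_reducible apply IntF.sdiff | with_reducible apply IntF.isUnion | with_reducible apply IntF.iimage | with_reducible apply IntF.the | with_reducible apply IntF.irec | with_reducible_and_instances apply IntF.add | with_reducible_and_instances apply IntF.mul | with_reducible apply IntF.succ | with_reducible apply IntF.val | (with_reducible refine Int.comp ?_ ?_; assumption) | (with_reducible refine Int.comp₂ ?_ ?_ ?_; assumption) | (with_reducible refine Int.comp₃ ?_ ?_ ?_ ?_; assumption) | (with_reducible refine IntF.comp ?_ ?_; assumption) | (with_reducible refine IntF.comp₂ ?_ ?_ ?_; assumption) | (with_reducible refine IntF.comp₃ ?_ ?_ ?_ ?_; assumption) | with_reducible apply IntF.pair))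
    · intro h _ _ y hy
      exact absurd hy (by simp)
    · intro s a _ has ih h hm hi
      by_cases hc : ∀ x, x ∈ s → h x ∈ s
      · have hi' : ∀ x y, x ∈ s → y ∈ s → h x = h y → x = y := fun x y hx hy =>
          hi x y (mem_insert.2 (Or.inr hx)) (mem_insert.2 (Or.inr hy))
        have hon := ih h hc hi'
        have haa : h a = a := by
          rcases mem_insert.1 (hm a (mem_insert.2 (Or.inl rfl))) with h1 | h1
          · exact h1
          · obtain ⟨x, hx, hxa⟩ := hon _ h1
            have : x = a := hi x a (mem_insert.2 (Or.inr hx)) (mem_insert.2 (Or.inl rfl)) hxa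
            exact absurd (this ▸ hx) has
        intro y hy
        rcases mem_insert.1 hy with rfl | hy
        · exact ⟨_, mem_insert.2 (Or.inl rfl), haa⟩
        · obtain ⟨x, hx, hxy⟩ := hon y hy
          exact ⟨x, mem_insert.2 (Or.inr hx), hxy⟩
      · push Not at hc
        obtain ⟨x₀, hx₀, hx₀'⟩ := hc
        have hx₀a : h x₀ = a := by
          rcases mem_insert.1 (hm x₀ (mem_insert.2 (Or.inr hx₀))) with h1 | h1
          · exact h1
          · exact absurd h1 hx₀'
        have hne : h a ≠ a := by
          intro h1
          have : x₀ = a := hi x₀ a (mem_insert.2 (Or.inr hx₀)) (mem_insert.2 (Or.inl rfl))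
            (hx₀a.trans h1.symm)
          exact has (this ▸ hx₀)
        have hha : h a ∈ s := by
          rcases mem_insert.1 (hm a (mem_insert.2 (Or.inl rfl))) with h1 | h1
          · exact absurd h1 hne
          · exact h1
        classical
        have hint : IntF M (fun x => if h x = a then h a else h x) :=
          IntF.ite (Int.eq (IFun.int_app h) (IntF.const a)) (IntF.const _) (IFun.int_app h)
        have happ : ∀ x, (lam M (fun x => if h x = a then h a else h x)) x =
          if h x = a then h a else h x := fun x => lam_apply hint x
        have hon := ih (lam M (fun x => if h x = a then h a else h x)) (by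
          intro x hx
          rw [happ]
          split_ifs with h1
          · exact hha
          · rcases mem_insert.1 (hm x (mem_insert.2 (Or.inr hx))) with h2 | h2
            · exact absurd h2 h1
            · exact h2) (by
          intro x y hx hy hxy
          rw [happ, happ] at hxy
          have hx' := mem_insert.2 (Or.inr hx : x = a ∨ x ∈ s)
          have hy' := mem_insert.2 (Or.inr hy : y = a ∨ y ∈ s)
          have ha' := mem_insert.2 (Or.inl rfl : a = a ∨ a ∈ s)
          split_ifs at hxy with h1 h2 h2
          · exact hi x y hx' hy' (h1.trans h2.symm)
          · exact absurd (hi a y ha' hy' hxy ▸ hy) has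
          · exact absurd (hi x a hx' ha' hxy ▸ hx) has
          · exact hi x y hx' hy' hxy)
        intro y hy
        rcases mem_insert.1 hy with rfl | hy
        · exact ⟨x₀, mem_insert.2 (Or.inr hx₀), hx₀a⟩
        · obtain ⟨x, hx, hxy⟩ := hon y hy
          rw [happ] at hxy
          split_ifs at hxy with h1
          · exact ⟨a, mem_insert.2 (Or.inl rfl), hxy⟩
          · exact ⟨x, mem_insert.2 (Or.inr hx), hxy⟩
  intro h hint hm hi y hy
  have happ : ∀ x, (lam M h) x = h x := fun x => lam_apply hint x
  obtain ⟨x, hx, hxy⟩ := key s hs (lam M h) (fun x hx => by rw [happ]; exact hm x hx)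
    (fun x y hx hy hxy => hi x y hx hy (by rw [happ, happ] at hxy; exact hxy)) y hy
  exact ⟨x, hx, by rw [happ] at hxy; exact hxy⟩

end Pool.Agent.Q212.ZE
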