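import Pool.Agent.Q212.ZA4
import Pool.Agent.Q212.ZD1

/-!
# Finitary partitions and 3-cycles without choice: definitions and statements

Internality goals (`Int M ..`, `IntF M ..`) are proved by the tactic block of this file (the block
in the proof of `int_isFs`; copy it), after unfolding the definitions, with the internality facts
of the functions that occur as hypotheses in the context (stated for tuples `q.1.1`, `q.1.2`, `q.2`,
as in `Pool.Agent.Q212.ZA1` and `ZA3`). For predicates with four arguments use `Int.comp₄`.

The theorem (for all models `M` of Zermelo set theory): for an infinite set `a` there is no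
injection from the set of the finitary partitions of `a` to the set of the permutations of `a`
with exactly three non-fixed points.

Everything is done with internal types and internal functions of the model (as in
`Pool.Agent.Q212.ZA3`). The plan: Hartogs numbers (H1, H2, HAR), recursion on well-orders (REC),
the well-order of the finitely supported functions from a well-ordered type to the natural numbers
(JWO, KWO), the coding of triples of such functions (RR), the new finite set (DEC, LAW, NEW), the
theorem that there is no sequence of disjoint nonempty finite sets (CORE), the closure (CLO), the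
counting of 3-cycles (TG, PIG, GI), the bridge (BR).
-/

set_option maxHeartbeats 400000
set_option linter.all false

namespace Pool.Agent.Q212.ZE

open FirstOrder FirstOrder.Language
open Pool.Agent.Helper672.ZFA
open Pool.Agent.H310
open Pool.Agent.Q212.ZA
open Pool.Agent.Q212.ZD (IWO)

universe u

section defs

variable {M : Type u} [L.Structure M] [hM : IsModel M]
variable {α κ δ σ τ : Type u} [ITy M α] [ITy M κ] [ITy M δ] [ITy M σ] [ITy M τ]

/-! ### Nonempty finite sets -/

theorem int_isFs : Int M (fun s : IPow M α => IFin s ∧ ∃ x, x ∈ s) := by
  (repeat' (first | with_reducible exact IntF.id | with_reducible exact IntF.fst' | with_reducible exact IntF.snd' | with_reducible exact IntF.const _ | with_reducible exact Int.const _ | assumption | with_reducible apply Int.and | with_reducible apply Int.or | with_reducible apply Int.not | with_reducible apply Int.imp | with_reducible apply Int.iff | with_reducible apply Int.ne | with_reducible apply Int.eq | with_reducible apply Int.mem | with_reducible apply Int.subset | with_reducible apply Int.ltN | with_reducible apply Int.leN | with_reducible apply Int.fin | with_reducible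 apply Int.unique | with_reducible apply Int.all | with_reducible apply Int.ex | with_reducible apply IntF.fst | with_reducible apply IntF.snd | with_reducible apply IntF.app | with_reducible apply IntF.ite | with_reducible apply IntF.sep | with_reducible apply IntF.lam | with_reducible apply IntF.insert | with_reducible apply IntF.singleton | with_reducible apply IntF.union | with_reducible apply IntF.inter | with_reducible apply IntF.sdiff | with_reducible apply IntF.isUnion | with_reducible apply IntF.iimage | with_reducible apply IntF.the | with_reducible apply IntF.irec | with_reducible_and_instances apply IntF.add | with_reducible_and_instances apply IntF.mul | with_reducible apply IntF.succ | with_reducible apply IntF.val | (with_reducible refine Int.comp ?_ ?_; assumption) | (with_reducible refine Int.comp₂ ?_ ?_ ?_; assumption) | (with_reducible refine Int.comp₃ ?_ ?_ ?_ ?_; assumption) | (with_reducible refine IntF.comp ?_ ?_; assumption) | (with_reducible refine IntF.comp₂ ?_ ?_ ?_; assumption) | (with_reducible refine IntF.comp₃ ?_ ?_ ?_ ?_; assumption) | with_reducible apply IntF.pair))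

instance instFactFs : Fact (Int M (fun s : IPow M α => IFin s ∧ ∃ x, x ∈ s)) := ⟨int_isFs⟩

variable (M α) in
/-- The type of nonempty finite sets. -/
abbrev Fs : Type u := {s : IPow M α // IFin s ∧ ∃ x, x ∈ s}

/-! ### 3-cycles -/

/-- `f` is a 3-cycle. -/
def IsC3 (f : IFun M α α) : Prop :=
  ∃ a b c, a ≠ b ∧ b ≠ c ∧ a ≠ c ∧ f a = b ∧ f b = c ∧ f c = a ∧
    ∀ x, x ≠ a → x ≠ b → x ≠ c → f x = x

theorem int_isC3 : Int M (fun f : IFun M α α => IsC3 f) := by
  unfold IsC3
  (repeat' (first | with_reducible exact IntF.id | with_reducible exact IntF.fst' | with_reducible exact IntF.snd' | with_reducible exact IntF.const _ | with_reducible exact Int.const _ | assumption | with_reducible apply Int.and | with_reducible apply Int.or | with_reducible apply Int.not | with_reducible apply Int.imp | with_reducible apply Int.iff | with_reducible apply Int.ne | with_reducible apply Int.eq | with_reducible apply Int.mem | with_reducible apply Int.subset | with_reducible apply Int.ltN | with_reducible apply Int.leN | with_reducible apply Int.fin | with_reducible apply Int.unique | with_reducible apply Int.all | with_reducible apply Int.ex |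 with_reducible apply IntF.fst | with_reducible apply IntF.snd | with_reducible apply IntF.app | with_reducible apply IntF.ite | with_reducible apply IntF.sep | with_reducible apply IntF.lam | with_reducible apply IntF.insert | with_reducible apply IntF.singleton | with_reducible apply IntF.union | with_reducible apply IntF.inter | with_reducible apply IntF.sdiff | with_reducible apply IntF.isUnion | with_reducible apply IntF.iimage | with_reducible apply IntF.the | with_reducible apply IntF.irec | with_reducible_and_instances apply IntF.add | with_reducible_and_instances apply IntF.mul | with_reducible apply IntF.succ | with_reducible apply IntF.val | (with_reducible refine Int.comp ?_ ?_; assumption) | (with_reducible refine Int.comp₂ ?_ ?_ ?_; assumption) | (with_reducible refine Int.comp₃ ?_ ?_ ?_ ?_; assumption) | (with_reducible refine IntF.comp ?_ ?_; assumption) | (with_reducible refine IntF.comp₂ ?_ ?_ ?_; assumption) | (with_reducible refine IntF.comp₃ ?_ ?_ ?_ ?_; assumption) | with_reducible apply IntF.pair))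

instance instFactC3 : Fact (Int M (fun f : IFun M α α => IsC3 f)) := ⟨int_isC3⟩

variable (M α) in
/-- The type of 3-cycles. -/
abbrev C3 : Type u := {f : IFun M α α // IsC3 f}

/-- The support of a 3-cycle. -/
noncomputable def sp (f : C3 M α) : IPow M α := sep M fun x => f.1 x ≠ x

variable (M) in
/-- The properties of the target type that are used: all supports have one, two or three elements,
and only finitely many elements have their support in a given finite set. -/
structure Tg (sup : τ → IPow M α) : Prop where
  int : IntF M sup
  three : ∀ t, ∃ a b c, ∀ x, x ∈ sup t ↔ x = a ∨ x = b ∨ x = c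
  fib : ∀ s : IPow M α, IFin s → FinP M (fun t => sup t ⊆ s)

/-! ### Well-orders as relations on a type (for Hartogs numbers) -/

/-- `R` is a well-order (reflexive form) of the set of all `x` with `(x, x) ∈ R`. -/
def IsW (R : IPow M (σ × σ)) : Prop :=
  (∀ x y, (x, y) ∈ R → (x, x) ∈ R ∧ (y, y) ∈ R) ∧
  (∀ x y, (x, y) ∈ R → (y, x) ∈ R → x = y) ∧
  (∀ x y z, (x, y) ∈ R → (y, z) ∈ R → (x, z) ∈ R) ∧
  (∀ x y, (x, x) ∈ R → (y, y) ∈ R → (x, y) ∈ R ∨ (y, x) ∈ R) ∧
  ∀ s : IPow M σ, (∃ x, x ∈ s ∧ (x, x) ∈ R) →
    ∃ x, x ∈ s ∧ (x, x) ∈ R ∧ ∀ y, y ∈ s → (y, y) ∈ R → (x, y) ∈ R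

theorem int_isW : Int M (fun R : IPow M (σ × σ) => IsW R) := by
  unfold IsW
  (repeat' (first | with_reducible exact IntF.id | with_reducible exact IntF.fst' | with_reducible exact IntF.snd' | with_reducible exact IntF.const _ | with_reducible exact Int.const _ | assumption | with_reducible apply Int.and | with_reducible apply Int.or | with_reducible apply Int.not | with_reducible apply Int.imp | with_reducible apply Int.iff | with_reducible apply Int.ne | with_reducible apply Int.eq | with_reducible apply Int.mem | with_reducible apply Int.subset | with_reducible apply Int.ltN | with_reducible apply Int.leN | with_reducible apply Int.fin | with_reducible apply Int.unique | with_reducible apply Int.all | with_reducible apply Int.ex | with_reducible apply IntF.fst | with_reducible apply IntF.snd | with_reducible apply IntF.app | with_reducible apply IntF.ite | with_reducible apply IntF.sep | with_reducible apply IntF.lam | with_reducible apply IntF.insert | with_reducible apply IntF.singleton | with_reducible apply IntF.union | with_reducible apply IntF.inter | with_reducible apply IntF.sdiff | with_reducible apply IntF.isUnion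 | with_reducible apply IntF.iimage | with_reducible apply IntF.the | with_reducible apply IntF.irec | with_reducible_and_instances apply IntF.add | with_reducible_and_instances apply IntF.mul | with_reducible apply IntF.succ | with_reducible apply IntF.val | (with_reducible refine Int.comp ?_ ?_; assumption) | (with_reducible refine Int.comp₂ ?_ ?_ ?_; assumption) | (with_reducible refine Int.comp₃ ?_ ?_ ?_ ?_; assumption) | (with_reducible refine IntF.comp ?_ ?_; assumption) | (with_reducible refine IntF.comp₂ ?_ ?_ ?_; assumption) | (with_reducible refine IntF.comp₃ ?_ ?_ ?_ ?_; assumption) | with_reducible apply IntF.pair))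

instance instFactW : Fact (Int M (fun R : IPow M (σ × σ) => IsW R)) := ⟨int_isW⟩

variable (M σ) in
/-- The type of the well-orders of subsets of `σ`. -/
abbrev WO : Type u := {R : IPow M (σ × σ) // IsW R}

/-- The restriction of `R` to the elements strictly below `x`. -/
noncomputable def rst (R : IPow M (σ × σ)) (x : σ) : IPow M (σ × σ) :=
  sep M fun q => q ∈ R ∧ (q.1, x) ∈ R ∧ q.1 ≠ x ∧ (q.2, x) ∈ R ∧ q.2 ≠ x

/-- `f` is an order isomorphism from `R` to `S`. -/
def Iso (R S f : IPow M (σ × σ)) : Prop :=
  (∀ a b, (a, b) ∈ f → (a, a) ∈ R ∧ (b, b) ∈ S) ∧
  (∀ a, (a, a) ∈ R → ∃ b, (a, b) ∈ f) ∧ (∀ b, (b, b) ∈ S → ∃ a, (a, b) ∈ f) ∧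
  ∀ a b a' b', (a, b) ∈ f → (a', b') ∈ f → ((a, a') ∈ R ↔ (b, b') ∈ S)

/-! ### Finitely supported functions to the natural numbers -/

theorem int_isFsp : Int M (fun g : IFun M δ (INat M) => IFin (sep M fun x => g x ≠ 0)) := by
  (repeat' (first | with_reducible exact IntF.id | with_reducible exact IntF.fst' | with_reducible exact IntF.snd' | with_reducible exact IntF.const _ | with_reducible exact Int.const _ | assumption | with_reducible apply Int.and | with_reducible apply Int.or | with_reducible apply Int.not | with_reducible apply Int.imp | with_reducible apply Int.iff | with_reducible apply Int.ne | with_reducible apply Int.eq | with_reducible apply Int.mem | with_reducible apply Int.subset | with_reducible apply Int.ltN | with_reducible apply Int.leN | with_reducible apply Int.fin | with_reducible apply Int.unique | with_reducible apply Int.all | with_reducible apply Int.ex | with_reducible apply IntF.fst | with_reducible apply IntF.snd | with_reducible apply IntF.app | with_reducible apply IntF.ite | with_reducible apply IntF.sep | with_reducible apply IntF.lam | with_reducible apply IntF.insert | with_reducible apply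 IntF.singleton | with_reducible apply IntF.union | with_reducible apply IntF.inter | with_reducible apply IntF.sdiff | with_reducible apply IntF.isUnion | with_reducible apply IntF.iimage | with_reducible apply IntF.the | with_reducible apply IntF.irec | with_reducible_and_instances apply IntF.add | with_reducible_and_instances apply IntF.mul | with_reducible apply IntF.succ | with_reducible apply IntF.val | (with_reducible refine Int.comp ?_ ?_; assumption) | (with_reducible refine Int.comp₂ ?_ ?_ ?_; assumption) | (with_reducible refine Int.comp₃ ?_ ?_ ?_ ?_; assumption) | (with_reducible refine IntF.comp ?_ ?_; assumption) | (with_reducible refine IntF.comp₂ ?_ ?_ ?_; assumption) | (with_reducible refine IntF.comp₃ ?_ ?_ ?_ ?_; assumption) | with_reducible apply IntF.pair))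

instance instFactFsp : Fact (Int M (fun g : IFun M δ (INat M) =>
    IFin (sep M fun x => g x ≠ 0))) := ⟨int_isFsp⟩

variable (M δ) in
/-- The type of the finitely supported functions to the natural numbers. -/
abbrev Jt : Type u := {g : IFun M δ (INat M) // IFin (sep M fun x => g x ≠ 0)}

/-- The order of the type `Jt M δ`: the largest difference decides. -/
def ltJ (lt : δ → δ → Prop) (g g' : Jt M δ) : Prop :=
  ∃ x, g.1 x < g'.1 x ∧ ∀ y, lt x y → g.1 y = g'.1 y

variable (M δ) in
/-- The index type. -/
abbrev Kt : Type u := Jt M δ × INat M

/-- The order of the index type. -/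
def ltK (lt : δ → δ → Prop) : Kt M δ → Kt M δ → Prop := prodLT (ltJ lt) (fun m n => m < n)

/-- `ξ` is the largest element of the support of `g`. -/
def Top (lt : δ → δ → Prop) (g : Jt M δ) (ξ : δ) : Prop :=
  g.1 ξ ≠ 0 ∧ ∀ y, lt ξ y → g.1 y = 0

/-- The set of the indices below `k`. -/
noncomputable def bel (lt : κ → κ → Prop) (k : κ) : IPow M κ := sep M fun i => lt i k

/-! ### Codes of triples -/

variable (M κ) in
/-- Triples. -/
abbrev Tr : Type u := (κ × κ) × κ

/-- Triples of elements of `D`. -/
def T3 (D : IPow M κ) (t : Tr κ) : Prop := t.1.1 ∈ D ∧ t.1.2 ∈ D ∧ t.2 ∈ D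

variable (M κ) in
/-- Coding functions for triples and pairs of natural numbers. -/
abbrev Cd : Type u := IFun M (Tr κ × (INat M × INat M)) κ

/-- `r` is an injective coding function on the triples of elements of `D`, with values in `D`. -/
def Rg (D : IPow M κ) (r : Cd M κ) : Prop :=
  (∀ t c, T3 D t → r (t, c) ∈ D) ∧
    ∀ t t' c c', T3 D t → T3 D t' → r (t, c) = r (t', c') → t = t' ∧ c = c'

/-- The family `u` is disjoint on `D`. -/
def Dj (D : IPow M κ) (u : IFun M κ (Fs M α)) : Prop :=
  ∀ i j x, i ∈ D → j ∈ D → x ∈ (u i).1 → x ∈ (u j).1 → i = j

/-- `x` is in the block with index `(t, j)`. -/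
def jn (u : IFun M κ (Fs M α)) (r : Cd M κ) (t : Tr κ) (j : INat M) (x : α) : Prop :=
  x ∈ (u (r (t, (j, 0)))).1 ∨ x ∈ (u (r (t, (j, INat.succ 0)))).1

/-- The finitary partition that codes `Δ`: the blocks are the sets `jn u r t j` for `(t, j)` in
`Δ`, and singletons. -/
noncomputable def ob (D : IPow M κ) (u : IFun M κ (Fs M α)) (r : Cd M κ)
    (Δ : IPow M (Tr κ × INat M)) : IFr M α :=
  mkR M fun x y => x = y ∨ ∃ t j, T3 D t ∧ (t, j) ∈ Δ ∧ jn u r t j x ∧ jn u r t j y

/-- The two halves of the block with index `(t, j)` are connected in `P`. -/
def dc (u : IFun M κ (Fs M α)) (r : Cd M κ) (P : IFr M α) (t : Tr κ) (j : INat M) : Prop :=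
  ∃ x y, x ∈ (u (r (t, (j, 0)))).1 ∧ y ∈ (u (r (t, (j, INat.succ 0)))).1 ∧ (x, y) ∈ P.1

/-- No partition with the support of its value in the three sets given by `t` has the
pattern `k`. -/
def Aw3 (sup : τ → IPow M α) (f : IFr M α → τ) (u : IFun M κ (Fs M α)) (r : Cd M κ) (t : Tr κ)
    (k : INat M) : Prop :=
  ∀ P : IFr M α, (∀ x, x ∈ sup (f P) → x ∈ (u t.1.1).1 ∨ x ∈ (u t.1.2).1 ∨ x ∈ (u t.2).1) →
    ¬ ∀ j, (dc u r P t j ↔ j = k)

/-- The least such `k`. -/
def LAw3 (sup : τ → IPow M α) (f : IFr M α → τ) (u : IFun M κ (Fs M α)) (r : Cd M κ) (t : Tr κ)
    (k : INat M) : Prop :=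
  Aw3 sup f u r t k ∧ ∀ k', Aw3 sup f u r t k' → k ≤ k'

/-- The diagonal set. -/
noncomputable def dg3 (sup : τ → IPow M α) (f : IFr M α → τ) (u : IFun M κ (Fs M α))
    (r : Cd M κ) : IPow M (Tr κ × INat M) := sep M fun q => LAw3 sup f u r q.1 q.2

/-- The new elements. -/
noncomputable def nws (sup : τ → IPow M α) (f : IFr M α → τ) (D : IPow M κ)
    (u : IFun M κ (Fs M α)) (r : Cd M κ) : IPow M α :=
  sep M fun x => x ∈ sup (f (ob D u r (dg3 sup f u r))) ∧ ∀ i, i ∈ D → ¬ x ∈ (u i).1

/-- The new set (with the default value `d₀`). -/
noncomputable def nw (sup : τ → IPow M α) (f : IFr M α → τ) (d₀ : Fs M α) (D : IPow M κ)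
    (u : IFun M κ (Fs M α)) (r : Cd M κ) : Fs M α :=
  the (fun v : Fs M α => v.1 = nws sup f D u r) d₀

/-- The partition `P` is trivial outside `s`. -/
def Spt (P : IFr M α) (s : IPow M α) : Prop := ∀ x y, (x, y) ∈ P.1 → x = y ∨ (x ∈ s ∧ y ∈ s)

end defs

/-! ### The statements -/

/-- Job H1. A well-order is not isomorphic to a proper initial segment.

Proof. Let `f` be an isomorphism from `R` to `rst R x`, `(x, x) ∈ R`. `f` is a function: if
`(a, b), (a, b') ∈ f` then `(a, a) ∈ R` gives `(b, b'), (b', b)` in `rst R x`, so `b = b'`. We have
`(x, b) ∈ f` with `b` strictly below `x`. The set of all `a` with `(a, b) ∈ f` for some `b` strictly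
below `a` (that is `(b, a) ∈ R`, `b ≠ a`) has a least element `a`. With `(a, b) ∈ f`, `b < a`; let
`(b, c) ∈ f`. Since `(b, a) ∈ R` and `(a, b) ∉ R`, we get `(c, b) ∈ R` and `(b, c) ∉ R`, so `c < b`.
So `b` is in the set and below `a`, a contradiction. -/
def S_H1 : Prop := ∀ (M : Type u) [L.Structure M] [IsModel M] (σ : Type u) [ITy M σ]
  (R f : IPow M (σ × σ)) (x : σ), IsW R → (x, x) ∈ R → ¬ Iso R (rst R x) f

/-- Job H2. Comparability of well-orders.

Proof. Let `g` be the set of all pairs `(x, y)` with `(x, x) ∈ R`, `(y, y) ∈ S` such that
`rst R x` and `rst S y` are isomorphic (by some `f`). By H1 (applied to `rst S y` for `y' < y`, note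
`rst (rst S y) y' = rst S y'`; compose isomorphisms) the set `g` is functional and injective. If
`(x, y) ∈ g` by `f` and `x' < x` then `(x', y') ∈ f` for some `y' < y` and the restriction of `f` shows
`(x', y') ∈ g`; symmetric for `y' < y`. So the domain and the range of `g` are initial segments, and
`g` preserves the order in both directions (for `(x, y), (x', y') ∈ g` with `x' < x` the element of
`f` at `x'` must be `y'`, so `y' < y`). If the domain is all of `R` and the range is all of `S` then
`g` is an isomorphism. If the domain is all of `R` and the range is not all of `S`, let `y` be the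
least element of `S` not in the range: then `g` is an isomorphism from `R` to `rst S y`. The
symmetric case is the same. If both are proper, let `x`, `y` be the least elements that are missing:
`g` is an isomorphism from `rst R x` to `rst S y`, so `(x, y) ∈ g`, a contradiction. -/
def S_H2 : Prop := ∀ (M : Type u) [L.Structure M] [IsModel M] (σ : Type u) [ITy M σ]
  (R S : IPow M (σ × σ)), IsW R → IsW S →
    (∃ f, Iso R S f) ∨ (∃ f y, (y, y) ∈ S ∧ Iso R (rst S y) f) ∨
      ∃ f x, (x, x) ∈ R ∧ Iso (rst R x) S f

/-- Job HAR (from H1, H2). Hartogs numbers.

Proof. On `WO M σ` let `R ~ S` mean that there is an isomorphism from `R` to `S`; this is an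
equivalence relation with internal graph, so the quotient `Ω` is an internal type
(`ITy.quotient`; or `ITy.ofSurj`). Let `[R] < [S]` mean that there is `x` with `(x, x) ∈ S` such that
`R` is isomorphic to `rst S x` (define the relation by representatives: there are `R'`, `S'` with
`a = [R']`, `b = [S']` and ...; it does not depend on them: isomorphisms `S ~ S'` restrict to
`rst S x ~ rst S' x'`). It is irreflexive by H1, transitive (`rst (rst T y) x = rst T x` for `x < y`),
total by H2. Least elements: let `p` be an internal nonempty predicate, `p [R]`. If no `x` in the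
field of `R` satisfies `p [rst R x]` then `[R]` is a least element. Else let `x` be the least element
of `R` with this property; `[rst R x]` is a least element, since `[S] < [rst R x]` means that `S` is
isomorphic to `rst (rst R x) y = rst R y` for a `y < x`.

There is no internal injection `g : Ω → σ`: let `R` be the set of the pairs `(g a, g b)` with
`a < b` or `a = b`. This is a well-order (of the range of `g`). For every `a` in `Ω` we have
`[rst R (g a)] = a`: for `a = [S]`, the set of the pairs `(x, g [rst S x])` is an isomorphism from
`S` to `rst R (g a)` (every `b < a` is of the form `[rst S x]`, by definition of the order, and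
`[rst S x] < [rst S y]` for `x < y`). For `a = [R]` we get that `R` is isomorphic to `rst R (g a)`,
which contradicts H1. -/
def S_HAR : Prop := ∀ (M : Type u) [L.Structure M] [IsModel M] (σ : Type u) [ITy M σ],
  ∃ (Ω : Type u) (_ : ITy M Ω) (lt : Ω → Ω → Prop), IWO M lt ∧
    ∀ g : Ω → σ, IntF M g → ¬ Function.Injective g

/-- The job HAR: prove HAR from H1 and H2. -/
def S_HAR' : Prop := S_H1.{u} → S_H2.{u} → S_HAR.{u}

/-- The job H2: prove H2 from H1. -/
def S_H2' : Prop := S_H1.{u} → S_H2.{u}

/-- Job REC. Recursion on a well-ordered type: if `G j t` depends only on the values of `t` below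
`j` then there is an internal function `e` with `e j = G j e` for all `j`.

Proof. Let `d` be an element of `τ`. Let `e j` be the unique `s` such that
there is `t` with `t i = G i t` for all `i < j` and `s = G j t` (default value otherwise):
`e j = the (fun s => ∃ t, (∀ i, lt i j → t i = G i t) ∧ s = G j t) d`, an internal function by
`IntF.the`. Two such functions `t`, `t'` for `j` agree below `j` (least counterexample `i`: below `i`
they agree, so `G i t = G i t'`), so `G j t = G j t'`. By induction on `j` (least counterexample)
`e j = G j e`: if `e i = G i e` for all `i < j` then `t = e` is allowed for `j`, and `s = G j e` is the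
unique value. -/
def S_REC : Prop := ∀ (M : Type u) [L.Structure M] [IsModel M] (κ τ : Type u) [ITy M κ] [ITy M τ]
  [Nonempty τ] (lt : κ → κ → Prop), IWO M lt → ∀ G : κ → IFun M κ τ → τ,
    IntF M (fun q : κ × IFun M κ τ => G q.1 q.2) →
    (∀ j t t', (∀ i, lt i j → t i = t' i) → G j t = G j t') →
    ∃ e : IFun M κ τ, ∀ j, e j = G j e

/-- Job JWO. The order of the finitely supported functions is a well-order.

Proof. Irreflexive: clear. Transitive: compare the two largest differences `x`, `y` (three cases).
Total: if `g ≠ g'` then the set of the differences is contained in the union of the supports,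
so it is finite and nonempty, and it has a largest element (`IFin.exists_min` for the reversed
order). Least elements: we show by induction on `ξ` (least counterexample): if an internal predicate
`p` holds for a `g` that vanishes at all `y` with `¬ lt y ξ`, then it has a least element. (For
the full statement one also needs the case where there is no such `ξ`: for a given `g` with `p g`
and `g ≠ 0` let `x` be the largest element of the support and argue as below.) So the step is: `g`
with `p g` and largest element `x` of the support (if `g = 0` then `g` is least, as no `h` satisfies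
`ltJ h 0`), and the claim holds for `ξ = x`. Let `n` be the least value `h x` of all `h` with `p h`
that vanish above `x`. Let `p' h` say that `h` vanishes at all `y` with `¬ lt y x` and that the
function `h[x := n]` satisfies `p`. By the claim for `x` there is a least element `h` of `p'` (`p'`
is internal; `p'` holds for some `h` by the choice of `n`: modify the value at `x` to be zero).
Then `h[x := n]` is a least element of `p`: if `p h'` and `h' < h[x := n]` with largest difference
`y`, then `y ≤ x`; if `y = x` this contradicts the choice of `n`; if `y < x` then `h' x = n`, `h'`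
vanishes above `x`, and `h'[x := 0]` contradicts the choice of `h`. -/
def S_JWO : Prop := ∀ (M : Type u) [L.Structure M] [IsModel M] (δ : Type u) [ITy M δ]
  (lt : δ → δ → Prop), IWO M lt → IWO M (ltJ (M := M) lt)

/-- Job KWO. Lexicographic products of well-orders (see also `SLO.prod`). The least element:
first the least first coordinate, then the least second coordinate. -/
def S_KWO : Prop := ∀ (M : Type u) [L.Structure M] [IsModel M] (κ δ : Type u) [ITy M κ] [ITy M δ]
  (lt : κ → κ → Prop) (lt' : δ → δ → Prop), IWO M lt → IWO M lt' → IWO M (prodLT lt lt')

/-- Job RR. The coding function.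

Proof. Let `q2 m n = 0` if `m = 0` and `n = 0`, else `q2 m n = succ (pr m n)` (with `pr` and
`pr_inj` from `H310R3.Real`): an internal injective function with `q2 0 0 = 0`. For `ξ` and
`t = (((g₁, l₁), (g₂, l₂)), (g₃, l₃))` and `c = (k, i)` let `rr ξ (t, c) = (h, N)` with
`h x = q2 (q2 (g₁ x) (g₂ x)) (g₃ x)` for `x < ξ` and `h x = 0` otherwise (its support is contained
in the union of the three supports, so it is finite), and `N` the code by nested `q2` of the eight
numbers `g₁ ξ, g₂ ξ, g₃ ξ, l₁, l₂, l₃, k, i`. Let `ξ` be the top of `g`. An index `(g', l')` below
`(g, n)` has `g' = g` or `ltJ g' g`, so `g'` vanishes above `ξ` (if the largest difference `x` was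
above `ξ` then `g' x < g x = 0`). So `g'` is determined by its values at the elements below `ξ` and at
`ξ`, and the function is injective on triples. The value is below `(g, n)`: `h ξ = 0 < g ξ` and both
vanish above `ξ`. -/
def S_RR : Prop := ∀ (M : Type u) [L.Structure M] [IsModel M] (δ : Type u) [ITy M δ]
  (lt : δ → δ → Prop), IWO M lt → ∃ rr : δ → Cd M (Kt M δ), IntF M rr ∧
    ∀ g ξ n, Top lt g ξ → Rg (bel (ltK lt) ((g, n) : Kt M δ)) (rr ξ)

/-- Job DEC. The partition decodes to the set.

Proof. By `mkR_spec`: the relation is internal, reflexive, symmetric, transitive (if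
`jn u r t j x` and `jn u r t' j' x` then by disjointness of `u` on `D` and injectivity of `r` we get
`t = t'`, `j = j'`), and the classes are finite (two finite sets). Then for `(t, j)` in `Δ` take
elements `x`, `y` of the two nonempty sets. Conversely let `x` be in the first set of `(t, j)`, `y` in
the second, and `x`, `y` equivalent: `x = y` is impossible (disjoint sets, as
`(t, (j, 0)) ≠ (t, (j, succ 0))`), and so there is `(t', j')` in `Δ`, `T3 D t'`, with `x` in its block; by
disjointness and injectivity `t = t'`, `j = j'`. -/
def S_DEC : Prop := ∀ (M : Type u) [L.Structure M] [IsModel M] (α κ : Type u) [ITy M α] [ITy M κ]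
  (D : IPow M κ) (u : IFun M κ (Fs M α)) (r : Cd M κ) (Δ : IPow M (Tr κ × INat M)),
    Rg D r → Dj D u → ∀ t j, T3 D t → (dc u r (ob D u r Δ) t j ↔ (t, j) ∈ Δ)

/-- Job LAW. There is a least `k` (see `exists_LAw` in `Pool.Agent.Q212.ZA1`).

Proof. By `INat.exists_least` it is enough to find some `k` with `Aw3`. Suppose that there is
none. The set of all `P` with support of the value in the union `s` of the three finite sets is finite
(by `Tg.fib` the values are in a finite set, and `f` is injective: `FinP.of_inj`). The function
`P ↦ the (fun k => ∀ j, (dc u r P t j ↔ j = k)) 0` maps this set onto all natural numbers. This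
contradicts `not_finP_nat`. -/
def S_LAW : Prop := ∀ (M : Type u) [L.Structure M] [IsModel M] (α κ τ : Type u) [ITy M α]
  [ITy M κ] [ITy M τ] (sup : τ → IPow M α) (f : IFr M α → τ), Tg M sup → IntF M f →
    (∀ P Q, f P = f Q → P = Q) → ∀ (u : IFun M κ (Fs M α)) (r : Cd M κ) (t : Tr κ),
      ∃ k, LAw3 sup f u r t k

/-- Job INW. The new set is an internal function of the data. (Unfold the definitions, with the
internality of each one proved in turn: `jn`, `dc`, `Aw3`, `LAw3`, `dg3`, `ob` by `IntF.mkR`, `nws`,
`nw` by `IntF.the`.) -/
def S_INW : Prop := ∀ (M : Type u) [L.Structure M] [IsModel M] (α κ τ : Type u) [ITy M α]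
  [ITy M κ] [ITy M τ] (sup : τ → IPow M α) (f : IFr M α → τ), Tg M sup → IntF M f →
    ∀ d₀ : Fs M α, IntF M (fun q : (IPow M κ × IFun M κ (Fs M α)) × Cd M κ =>
      nw sup f d₀ q.1.1 q.1.2 q.2)

/-- Job NEW (from DEC, LAW). The new set is disjoint from the old ones.

Proof. Let `P = ob D u r (dg3 sup f u r)`. Suppose that `nws` is empty: all elements of
`sup (f P)` are in some `u i` with `i ∈ D`. By `Tg.three` there are `i₁ i₂ i₃` in `D` such that all
elements of the support are in `u i₁`, `u i₂` or `u i₃`. Let `t = ((i₁, i₂), i₃)` and let `k` be the
number with `LAw3 sup f u r t k` (by LAW; it is unique by antisymmetry). By DEC, for all `j`: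
`dc u r P t j` iff `(t, j)` is in the diagonal set, iff `LAw3 sup f u r t j` (`mem_sep`; it is
internal), iff `j = k`. This contradicts `Aw3 sup f u r t k`. So `nws` is nonempty; it is finite
as a subset of `sup (f P)`, so `nw` has the value `nws` (`the_eq`). -/
def S_NEW : Prop := S_DEC.{u} → S_LAW.{u} → ∀ (M : Type u) [L.Structure M] [IsModel M]
  (α κ τ : Type u) [ITy M α] [ITy M κ] [ITy M τ] (sup : τ → IPow M α) (f : IFr M α → τ),
    Tg M sup → IntF M f → (∀ P Q, f P = f Q → P = Q) → ∀ (d₀ : Fs M α) (D : IPow M κ)
      (u : IFun M κ (Fs M α)) (r : Cd M κ), Rg D r → Dj D u → ∀ i, i ∈ D → ∀ x,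
        x ∈ (nw sup f d₀ D u r).1 → ¬ x ∈ (u i).1

/-- Job LOC. The new set depends only on the family on `D`.

Proof. For `T3 D t` the values of `r` are in `D`, so `jn`, `dc`, `Aw3`, `LAw3` agree for `u` and
`u'` at `t`. So the relations in the definition of `ob` agree (for `T3 D t` we have
`(t, j) ∈ dg3 sup f u r` iff `(t, j) ∈ dg3 sup f u' r`, by `mem_sep`), and `ob` has the same value
(`congrArg` with `funext`, `propext`), and also `nws`. -/
def S_LOC : Prop := ∀ (M : Type u) [L.Structure M] [IsModel M] (α κ τ : Type u) [ITy M α]
  [ITy M κ] [ITy M τ] (sup : τ → IPow M α) (f : IFr M α → τ), Tg M sup → IntF M f →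
    ∀ (d₀ : Fs M α) (D : IPow M κ) (u u' : IFun M κ (Fs M α)) (r : Cd M κ), Rg D r →
      (∀ i, i ∈ D → u i = u' i) → nw sup f d₀ D u r = nw sup f d₀ D u' r

/-- Job CORE (from HAR, REC, JWO, KWO, RR, INW, NEW, LOC). There is no sequence of disjoint
nonempty finite sets.

Proof. Let `Ω`, `lt` be the Hartogs number of `Fs M α`. Let `κ = Kt M Ω` with the well-order
`ltK lt` (JWO, KWO; the order of `INat M` is a well-order by `INat.exists_least`). If `Ω` is empty
then there is an internal injection, a contradiction (`IntF` of the empty function: `Int.const`
with `Int.congr`); so let `ω₀` be an element. For an index `(g, n)` and `t` let `G (g, n) t = d n` if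
`g` vanishes everywhere, and otherwise `nw sup f (d 0) (bel (ltK lt) (g, n)) t (rr ξ)` where `ξ` is
the top of `g` (`the (fun ξ => Top lt g ξ) ω₀`; it exists as the support is finite and nonempty).
`G` is internal (INW), and it depends only on the values of `t` below `(g, n)` (LOC, RR). Let `e` be
the function from REC. By induction (least counterexample) for every `k`: the set `e k` is disjoint
from `e i` for all `i` below `k`. For `k = (0, n)` the indices below it are `(0, m)` with `m < n` (no
function is below `0`), so it follows from `hdis`. For `k = (g, n)` with `g ≠ 0` it follows from NEW,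
where `Dj (bel (ltK lt) k) e` holds by the induction hypothesis (two different indices
below `k` are comparable). So `e` is a family of pairwise disjoint nonempty sets, and the function
that maps `x` in `Ω` to `e (δ_x, 0)`, with `δ_x` the function with value `succ 0` at `x` and `0`
elsewhere, is an internal injection from `Ω` to `Fs M α`. This is a contradiction. -/
def S_CORE : Prop := ∀ (M : Type u) [L.Structure M] [IsModel M] (α τ : Type u) [ITy M α]
  [ITy M τ] (sup : τ → IPow M α) (f : IFr M α → τ), Tg M sup → IntF M f →
    (∀ P Q, f P = f Q → P = Q) → ∀ d : INat M → Fs M α, IntF M d →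
      (∀ m n x, x ∈ (d m).1 → x ∈ (d n).1 → m = n) → False

/-- The combination of the jobs in the proof of CORE. -/
def S_CORE' : Prop := S_HAR.{u} → S_REC.{u} → S_JWO.{u} → S_KWO.{u} → S_RR.{u} → S_INW.{u} →
  S_DEC.{u} → S_LAW.{u} → S_NEW.{u} → S_LOC.{u} → S_CORE.{u}

/-- Job FPP. There are only finitely many partitions that are trivial outside a finite set.

Proof. The function that maps `P` to the set of the pairs `(x, y) ∈ P.1` with `x, y ∈ s` is
injective on the partitions with `Spt P s` (`IFr.ext`: for `x = y` both hold by reflexivity), and its
values are in the finite set `ipow (iprod s s)`. Use `FinP.of_inj`. -/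
def S_FPP : Prop := ∀ (M : Type u) [L.Structure M] [IsModel M] (α : Type u) [ITy M α]
  (s : IPow M α), IFin s → FinP M (fun P : IFr M α => Spt P s)

/-- Job CLO (from CORE, FPP). Finite sets are contained in finite closed sets.

Proof. Let `F s` be the union of `s` and all sets `sup (f P)` with `Spt P s`, an internal function
of `s` (`sep` of `x ∈ s ∨ ∃ P, Spt P s ∧ x ∈ sup (f P)`). It is finite for finite `s`, by FPP (the
image under `P ↦ sup (f P)` of the finite set of all `P`, `IFin.isUnion`, and the supports are
finite by `Tg.three`). Let `E n = irec E₀ (fun _ s => F s) n`: an increasing sequence of finite sets. If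
`F (E n) ⊆ E n` for some `n` we are done, with `E n`. Otherwise let `d n` be the set
`F (E n) \ E n`, a nonempty finite set (an internal function to `Fs M α`: `IntF.mk`, or `the`). For
`m < n`: `d m ⊆ E (m + 1) ⊆ E n`, and `d n` is disjoint from `E n`, so the sets are disjoint. This
contradicts CORE. -/
def S_CLO : Prop := S_CORE.{u} → S_FPP.{u} → ∀ (M : Type u) [L.Structure M] [IsModel M]
  (α τ : Type u) [ITy M α] [ITy M τ] (sup : τ → IPow M α) (f : IFr M α → τ), Tg M sup → IntF M f →
    (∀ P Q, f P = f Q → P = Q) → ∀ E₀ : IPow M α, IFin E₀ → ∃ E : IPow M α, IFin E ∧ E₀ ⊆ E ∧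
      ∀ P : IFr M α, Spt P E → sup (f P) ⊆ E

/-- Job TGC. The 3-cycles are a target type.

Proof. `three`: from the definition (for `a`, `b`, `c` as in `IsC3` the support is `{a, b, c}`; `f a
= b ≠ a` and so on). `fib`: the function that maps a 3-cycle to the set of the pairs `(x, f x)` with
`x ∈ s` is injective on the 3-cycles with support in `s`, and its values are in the finite set
`ipow (iprod s s)` (`f x ∈ s` for `x ∈ s`: if `f x ≠ x` then `f x` is in the support). -/
def S_TGC : Prop := ∀ (M : Type u) [L.Structure M] [IsModel M] (α : Type u) [ITy M α],
  Tg M (fun g : C3 M α => sp g)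

/-- Job PIG. The pigeonhole principle: an internal function that maps a finite set injectively to
itself is onto.

Proof. By induction on finite sets (`IFin.ind`) for all internal functions at once
(`p s := ∀ h : IFun M β β, ...`), or with `BN_unique` and `crd_insert` from `Pool.Agent.Q212.ZA2`: if
`y ∈ s` is not in the image `s'` of `s` then `s` and `s'` have the same number of elements (transport
an enumeration `BN e s n` by `h`), but `insert y s' ⊆ s` and so `crd s' < crd s` (`crd_mono` in
`Pool.Agent.Q212.ZB1`). -/
def S_PIG : Prop := ∀ (M : Type u) [L.Structure M] [IsModel M] (β : Type u) [ITy M β]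
  (s : IPow M β), IFin s → ∀ h : β → β, IntF M h → (∀ x, x ∈ s → h x ∈ s) →
    (∀ x y, x ∈ s → y ∈ s → h x = h y → x = y) → ∀ y, y ∈ s → ∃ x, x ∈ s ∧ h x = y

/-- Job GI. An injection from the 3-cycles in a finite set with at least seven elements to the
partitions.

Proof. Let `e : IFun M α (INat M)` be injective on `E` (`exists_BN`). A 3-cycle `g` is positive if
there is `x` with `g x ≠ x`, `e x < e (g x)` and `e (g x) < e (g (g x))`. Let `G g` be the partition with
`sp g` as one block and singletons otherwise if `g` is positive, and with the two blocks `sp g`
and `E \ sp g` and singletons outside `E` otherwise (by `mkR` and `mkR_spec`). It is internal and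
trivial outside `E`, and it is not the identity, since the support has two different elements.
The support can be read off: let `G g = G g'`, `g`, `g'` in `E`. The set `E \ sp g` has at least
four elements (`w` has seven values in `E`, the support has three). If both are positive, the only
block with two different elements is the support, so `sp g = sp g'`. If `g` is positive and `g'` is
not: `E \ sp g'` has two different elements and `sp g'` also, and they are two different blocks of
the same partition with only one such block, a contradiction. If both are not positive: if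
`sp g ≠ sp g'` then `sp g' = E \ sp g` (the block of an element of `sp g'`; supports of 3-cycles have
exactly three elements), and so `E` has only six elements, a contradiction. Finally, if `sp g =
sp g'` and both are positive or both are not positive, then `g = g'`: for `sp g = {a, b, c}` with
`e a < e b < e c` there are only two 3-cycles with this support, and `a ↦ b ↦ c ↦ a` is positive and
the other one is not. (For the sizes use `Finset` of elements of `α` in Lean.) -/
def S_GI : Prop := ∀ (M : Type u) [L.Structure M] [IsModel M] (α : Type u) [ITy M α]
  (E : IPow M α), IFin E → ∀ w : Fin 7 → α, Function.Injective w → (∀ i, w i ∈ E) →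
    ∃ G : C3 M α → IFr M α, IntF M G ∧ (∀ g, sp g ⊆ E → Spt (G g) E ∧ G g ≠ idR M α) ∧
      ∀ g g', sp g ⊆ E → sp g' ⊆ E → G g = G g' → g = g'

/-- Job FIN (from CLO, TGC, PIG, GI). The internal form of the theorem.

Proof. There are seven different elements of `α`, since it is not finite (a type with at most six
elements is internally finite; build the elements one after the other). Let `E` be a finite closed
set that contains them (CLO with `sup = sp`, TGC). Let `G` be the injection from GI. The function
`g ↦ f (G g)` maps the finite set of all 3-cycles in `E` (`Tg.fib`) injectively to itself. By PIG it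
is onto, so `f (idR M α)`, which is in the set as `idR M α` is trivial outside `E`, is `f (G g)` for
some `g` in `E`. So `idR M α = G g`, a contradiction. -/
def S_FIN : Prop := ∀ (M : Type u) [L.Structure M] [IsModel M] (α : Type u) [ITy M α],
  ¬ FinP M (fun _ : α => True) → ∀ f : IFr M α → C3 M α, IntF M f →
    ¬ ∀ P Q, f P = f Q → P = Q

/-- The combination of the jobs in the proof of FIN. -/
def S_FIN' : Prop := S_CORE.{u} → S_FPP.{u} → S_CLO.{u} → S_TGC.{u} → S_PIG.{u} → S_GI.{u} →
  S_FIN.{u}

end Pool.Agent.Q212.ZE
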